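import Mathlib

/-!
# It is decidable whether a subdirect product of two free semigroups is a fiber product

Let `S` be a subdirect product of `A⁺` and `B⁺` generated by a finite set `X` of pairs. Then `S` is
a fiber product if and only if for all pairs `(s, v)` in `X` and `(s', v)` in `S` one may replace a
factor `s` by `s'`, and a factor `s'` by `s`, in the first coordinate of every element of `S`. It
suffices to check this for the products of a bounded number of elements of `X`. This gives a
primitive recursive decision procedure.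
-/

set_option autoImplicit false

namespace Pool.Agent.Results.MP_b63848_al.Decidable

/-! ### The statement -/

/-- `S` is a subdirect product: both coordinate projections are surjective. -/
def IsSubdirect {A B : Type} (S : Subsemigroup (FreeSemigroup A × FreeSemigroup B)) : Prop :=
  (∀ u, ∃ v, (u, v) ∈ S) ∧ (∀ v, ∃ u, (u, v) ∈ S)

/-- `S` is a fiber product: there are a semigroup `Q` and surjective homomorphisms `φ : A⁺ → Q`
and `ψ : B⁺ → Q` with `S = {(u, v) : φ u = ψ v}`. -/
def IsFiberProduct {A B : Type} (S : Subsemigroup (FreeSemigroup A × FreeSemigroup B)) : Prop :=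
  ∃ (Q : Type) (_ : Semigroup Q) (φ : FreeSemigroup A →ₙ* Q) (ψ : FreeSemigroup B →ₙ* Q),
    Function.Surjective φ ∧ Function.Surjective ψ ∧
    ∀ u v, (u, v) ∈ S ↔ φ u = ψ v

/-- The subsemigroup generated by a finite list of pairs. -/
def gen {A B : Type} (X : List (FreeSemigroup A × FreeSemigroup B)) :
    Subsemigroup (FreeSemigroup A × FreeSemigroup B) :=
  Subsemigroup.closure {p | p ∈ X}

/-- The list of letters of a word. -/
def toL {A : Type} (x : FreeSemigroup A) : List A := x.head :: x.tail

/-- The code of a list of pairs of words over `Fin m` and `Fin n`: each word is replaced by the list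
of its letters, as natural numbers. -/
def code {m n : ℕ} (X : List (FreeSemigroup (Fin m) × FreeSemigroup (Fin n))) :
    List (List ℕ × List ℕ) :=
  X.map fun p => ((toL p.1).map Fin.val, (toL p.2).map Fin.val)

/-! ### The test -/

/-- Products of `k` elements of `X`. -/
def prods {A B : Type} (X : List (List A × List B)) : ℕ → List (List A × List B)
  | 0 => [([], [])]
  | k + 1 => (prods X k).flatMap fun p => X.map fun q => (p.1 ++ q.1, p.2 ++ q.2)

/-- Products of at most `k` elements of `X`. -/
def upTo {A B : Type} (X : List (List A × List B)) (k : ℕ) : List (List A × List B) :=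
  (List.range (k + 1)).flatMap (prods X)

/-- Membership test. -/
def Mem {A B : Type} (X : List (List A × List B)) (w : List A × List B) : Prop :=
  ∃ a ∈ upTo X w.1.length, a = w

/-- If `s` occurs in the first coordinate of `r` at position `i` then it can be replaced by `s'`. -/
def Sw {A B : Type} (X : List (List A × List B)) (s s' : List A) (r : List A × List B) (i : ℕ) :
    Prop :=
  r.1 ≠ r.1.take i ++ (s ++ r.1.drop (i + s.length)) ∨
    Mem X (r.1.take i ++ (s' ++ r.1.drop (i + s.length)), r.2)

/-- The test. -/
def Test {A B : Type} (X : List (List A × List B)) : Prop :=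
  ∀ p ∈ X, ∀ q ∈ upTo X p.2.length, q.2 ≠ p.2 ∨
    ∀ r ∈ upTo X (p.1.length + q.1.length), ∀ i ∈ List.range (r.1.length + 1),
      Sw X p.1 q.1 r i ∧ Sw X q.1 p.1 r i

/-! ### The test is primitive recursive -/

section Prim

open Primrec

theorem primrec_prods : Primrec₂ (@prods ℕ ℕ) := by
  have h : Primrec₂ (fun (X : List (List ℕ × List ℕ)) (n : ℕ) =>
      (n.rec [([], [])] (fun _ IH => IH.flatMap fun p => X.map fun q =>
        (p.1 ++ q.1, p.2 ++ q.2)) : List (List ℕ × List ℕ))) := by
    refine Primrec.nat_rec (f := fun _ : List (List ℕ × List ℕ) =>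
        ([([], [])] : List (List ℕ × List ℕ)))
      (g := fun (X : List (List ℕ × List ℕ)) (s : ℕ × List (List ℕ × List ℕ)) =>
        s.2.flatMap fun p => X.map fun q => (p.1 ++ q.1, p.2 ++ q.2)) (Primrec.const _) ?_
    refine Primrec.list_flatMap (f := fun a : List (List ℕ × List ℕ) ×
      (ℕ × List (List ℕ × List ℕ)) => a.2.2)
      (g := fun a p => a.1.map fun q => (p.1 ++ q.1, p.2 ++ q.2)) (snd.comp snd) ?_
    refine Primrec.list_map (f := fun a : (List (List ℕ × List ℕ) ×
      (ℕ × List (List ℕ × List ℕ))) × (List ℕ × List ℕ) => a.1.1)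
      (g := fun a q => (a.2.1 ++ q.1, a.2.2 ++ q.2)) (fst.comp fst) ?_
    exact Primrec.pair
      (list_append.comp (fst.comp (snd.comp fst)) (fst.comp snd))
      (list_append.comp (snd.comp (snd.comp fst)) (snd.comp snd))
  refine h.of_eq fun X n => ?_
  induction n with
  | zero => rfl
  | succ n ih => rw [prods, ← ih]

theorem primrec_upTo : Primrec₂ (@upTo ℕ ℕ) := by
  refine Primrec.list_flatMap (f := fun a : List (List ℕ × List ℕ) × ℕ => List.range (a.2 + 1))
    (g := fun a k => prods a.1 k) (list_range.comp (succ.comp snd)) ?_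
  exact primrec_prods.comp (fst.comp fst) snd

theorem primrec_Mem : PrimrecRel (@Mem ℕ ℕ) := by
  have h : PrimrecRel (fun (L : List (List ℕ × List ℕ)) (w : List ℕ × List ℕ) =>
      ∃ a ∈ L, a = w) := PrimrecRel.exists_mem_list Primrec.eq
  exact h.comp (primrec_upTo.comp fst (list_length.comp (fst.comp snd))) snd

/-- The parameters. -/
abbrev Par : Type := List (List ℕ × List ℕ) × (List ℕ × List ℕ)

theorem primrec_Sw : PrimrecPred (fun a : (((List (List ℕ × List ℕ) × List ℕ) × List ℕ) ×
    (List ℕ × List ℕ)) × ℕ => Sw a.1.1.1.1 a.1.1.1.2 a.1.1.2 a.1.2 a.2) := by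
  have hX : Primrec (fun a : (((List (List ℕ × List ℕ) × List ℕ) × List ℕ) ×
    (List ℕ × List ℕ)) × ℕ => a.1.1.1.1) := fst.comp (fst.comp (fst.comp fst))
  have hs : Primrec (fun a : (((List (List ℕ × List ℕ) × List ℕ) × List ℕ) ×
    (List ℕ × List ℕ)) × ℕ => a.1.1.1.2) := snd.comp (fst.comp (fst.comp fst))
  have hs' : Primrec (fun a : (((List (List ℕ × List ℕ) × List ℕ) × List ℕ) ×
    (List ℕ × List ℕ)) × ℕ => a.1.1.2) := snd.comp (fst.comp fst)
  have hr1 : Primrec (fun a : (((List (List ℕ × List ℕ) × List ℕ) × List ℕ) ×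
    (List ℕ × List ℕ)) × ℕ => a.1.2.1) := fst.comp (snd.comp fst)
  have hr2 : Primrec (fun a : (((List (List ℕ × List ℕ) × List ℕ) × List ℕ) ×
    (List ℕ × List ℕ)) × ℕ => a.1.2.2) := snd.comp (snd.comp fst)
  have hi : Primrec (fun a : (((List (List ℕ × List ℕ) × List ℕ) × List ℕ) ×
    (List ℕ × List ℕ)) × ℕ => a.2) := snd
  have htake := list_take.comp hi hr1
  have hdrop := list_drop.comp (nat_add.comp hi (list_length.comp hs)) hr1
  have h1 : PrimrecPred (fun a : (((List (List ℕ × List ℕ) × List ℕ) × List ℕ) ×
    (List ℕ × List ℕ)) × ℕ => a.1.2.1 =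
      a.1.2.1.take a.2 ++ (a.1.1.1.2 ++ a.1.2.1.drop (a.2 + a.1.1.1.2.length))) :=
    Primrec.eq.comp hr1 (list_append.comp htake (list_append.comp hs hdrop))
  have h2 : PrimrecPred (fun a : (((List (List ℕ × List ℕ) × List ℕ) × List ℕ) ×
    (List ℕ × List ℕ)) × ℕ => Mem a.1.1.1.1
      (a.1.2.1.take a.2 ++ (a.1.1.2 ++ a.1.2.1.drop (a.2 + a.1.1.1.2.length)), a.1.2.2)) :=
    primrec_Mem.comp hX (Primrec.pair (list_append.comp htake (list_append.comp hs' hdrop)) hr2)
  exact h1.not.or h2

theorem primrec_Test : PrimrecPred (@Test ℕ ℕ) := by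
  -- innermost relation
  have h1 : PrimrecRel (fun (i : ℕ) (b : (List ℕ × List ℕ) × ((List ℕ × List ℕ) ×
      ((List ℕ × List ℕ) × List (List ℕ × List ℕ)))) =>
      Sw b.2.2.2 b.2.2.1.1 b.2.1.1 b.1 i ∧ Sw b.2.2.2 b.2.1.1 b.2.2.1.1 b.1 i) := by
    have hi : Primrec (fun a : ℕ × ((List ℕ × List ℕ) × ((List ℕ × List ℕ) ×
      ((List ℕ × List ℕ) × List (List ℕ × List ℕ)))) => a.1) := fst
    have hr : Primrec (fun a : ℕ × ((List ℕ × List ℕ) × ((List ℕ × List ℕ) ×
      ((List ℕ × List ℕ) × List (List ℕ × List ℕ)))) => a.2.1) := fst.comp snd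
    have hq : Primrec (fun a : ℕ × ((List ℕ × List ℕ) × ((List ℕ × List ℕ) ×
      ((List ℕ × List ℕ) × List (List ℕ × List ℕ)))) => a.2.2.1.1) :=
      fst.comp (fst.comp (snd.comp snd))
    have hp : Primrec (fun a : ℕ × ((List ℕ × List ℕ) × ((List ℕ × List ℕ) ×
      ((List ℕ × List ℕ) × List (List ℕ × List ℕ)))) => a.2.2.2.1.1) :=
      fst.comp (fst.comp (snd.comp (snd.comp snd)))
    have hX : Primrec (fun a : ℕ × ((List ℕ × List ℕ) × ((List ℕ × List ℕ) ×
      ((List ℕ × List ℕ) × List (List ℕ × List ℕ)))) => a.2.2.2.2) :=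
      snd.comp (snd.comp (snd.comp snd))
    have e1 := primrec_Sw.comp (Primrec.pair (Primrec.pair (Primrec.pair (Primrec.pair hX hp) hq)
      hr) hi)
    have e2 := primrec_Sw.comp (Primrec.pair (Primrec.pair (Primrec.pair (Primrec.pair hX hq) hp)
      hr) hi)
    exact e1.and e2
  have h2 := h1.forall_mem_list
  -- quantify over `r`
  have h3 : PrimrecRel (fun (r : List ℕ × List ℕ) (b : (List ℕ × List ℕ) ×
      ((List ℕ × List ℕ) × List (List ℕ × List ℕ))) =>
      ∀ i ∈ List.range (r.1.length + 1),
        Sw b.2.2 b.2.1.1 b.1.1 r i ∧ Sw b.2.2 b.1.1 b.2.1.1 r i) := by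
    exact h2.comp (list_range.comp (succ.comp (list_length.comp (fst.comp fst))))
      (Primrec.pair fst snd)
  have h4 := h3.forall_mem_list
  -- quantify over `q`
  have h5 : PrimrecRel (fun (q : List ℕ × List ℕ) (b : (List ℕ × List ℕ) ×
      List (List ℕ × List ℕ)) => q.2 ≠ b.1.2 ∨
      ∀ r ∈ upTo b.2 (b.1.1.length + q.1.length), ∀ i ∈ List.range (r.1.length + 1),
        Sw b.2 b.1.1 q.1 r i ∧ Sw b.2 q.1 b.1.1 r i) := by
    have e1 : PrimrecPred (fun a : (List ℕ × List ℕ) × ((List ℕ × List ℕ) ×
      List (List ℕ × List ℕ)) => a.1.2 = a.2.1.2) :=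
      Primrec.eq.comp (snd.comp fst) (snd.comp (fst.comp snd))
    have e2 := h4.comp (f := fun a : (List ℕ × List ℕ) × ((List ℕ × List ℕ) ×
      List (List ℕ × List ℕ)) => upTo a.2.2 (a.2.1.1.length + a.1.1.length))
      (g := fun a => (a.1, a.2))
      (primrec_upTo.comp (snd.comp snd) (nat_add.comp
        (list_length.comp (fst.comp (fst.comp snd))) (list_length.comp (fst.comp fst))))
      (Primrec.pair fst snd)
    exact e1.not.or e2
  have h6 := h5.forall_mem_list
  -- quantify over `p`
  have h7 : PrimrecRel (fun (p : List ℕ × List ℕ) (X : List (List ℕ × List ℕ)) =>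
      ∀ q ∈ upTo X p.2.length, q.2 ≠ p.2 ∨
      ∀ r ∈ upTo X (p.1.length + q.1.length), ∀ i ∈ List.range (r.1.length + 1),
        Sw X p.1 q.1 r i ∧ Sw X q.1 p.1 r i) := by
    exact h6.comp (primrec_upTo.comp snd (list_length.comp (snd.comp fst))) (Primrec.pair fst snd)
  exact h7.forall_mem_list.comp Primrec.id Primrec.id

end Prim

/-! ### Correctness of the test -/

section Correct

variable {A B : Type}

/-- `w` is a product of elements of `X`. -/
def Gen (X : List (List A × List B)) (w : List A × List B) : Prop :=
  ∃ l : List (List A × List B), (∀ x ∈ l, x ∈ X) ∧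
    (l.map Prod.fst).flatten = w.1 ∧ (l.map Prod.snd).flatten = w.2

theorem mem_prods (X : List (List A × List B)) (k : ℕ) (w : List A × List B) :
    w ∈ prods X k ↔ ∃ l : List (List A × List B), (∀ x ∈ l, x ∈ X) ∧ l.length = k ∧
      (l.map Prod.fst).flatten = w.1 ∧ (l.map Prod.snd).flatten = w.2 := by
  induction k generalizing w with
  | zero =>
    simp only [prods, List.mem_singleton]
    constructor
    · rintro rfl
      exact ⟨[], by simp, rfl, rfl, rfl⟩
    · rintro ⟨l, -, hl, h1, h2⟩
      rw [List.length_eq_zero_iff] at hl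
      subst hl
      exact Prod.ext h1.symm h2.symm
  | succ k ih =>
    simp only [prods, List.mem_flatMap, List.mem_map]
    constructor
    · rintro ⟨p, hp, q, hq, rfl⟩
      obtain ⟨l, hl, hk, h1, h2⟩ := (ih p).1 hp
      refine ⟨l ++ [q], ?_, by simp [hk], by simp [h1], by simp [h2]⟩
      intro x hx
      rcases List.mem_append.1 hx with hx | hx
      · exact hl x hx
      · rw [List.mem_singleton.1 hx]
        exact hq
    · rintro ⟨l, hl, hk, h1, h2⟩
      rcases List.eq_nil_or_concat l with h | ⟨l', q, h⟩
      · rw [h] at hk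
        simp at hk
      · subst h
        refine ⟨((l'.map Prod.fst).flatten, (l'.map Prod.snd).flatten),
          (ih _).2 ⟨l', fun x hx => hl x (by simp [hx]), by simpa using hk, rfl, rfl⟩,
          q, hl q (by simp), ?_⟩
        apply Prod.ext
        · simpa using h1
        · simpa using h2

theorem mem_upTo (X : List (List A × List B)) (k : ℕ) (w : List A × List B) :
    w ∈ upTo X k ↔ ∃ l : List (List A × List B), (∀ x ∈ l, x ∈ X) ∧ l.length ≤ k ∧
      (l.map Prod.fst).flatten = w.1 ∧ (l.map Prod.snd).flatten = w.2 := by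
  simp only [upTo, List.mem_flatMap, List.mem_range, mem_prods]
  constructor
  · rintro ⟨n, hn, l, hl, hk, h⟩
    exact ⟨l, hl, by omega, h⟩
  · rintro ⟨l, hl, hk, h⟩
    exact ⟨l.length, by omega, l, hl, rfl, h⟩

theorem Gen.of_upTo {X : List (List A × List B)} {k : ℕ} {w : List A × List B}
    (h : w ∈ upTo X k) : Gen X w := by
  obtain ⟨l, hl, -, h⟩ := (mem_upTo X k w).1 h
  exact ⟨l, hl, h⟩

theorem Gen.mul {X : List (List A × List B)} {u u' : List A} {v v' : List B}
    (h : Gen X (u, v)) (h' : Gen X (u', v')) : Gen X (u ++ u', v ++ v') := by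
  obtain ⟨l, hl, h1, h2⟩ := h
  obtain ⟨l', hl', h1', h2'⟩ := h'
  refine ⟨l ++ l', ?_, by simp [h1, h1'], by simp [h2, h2']⟩
  intro x hx
  rcases List.mem_append.1 hx with hx | hx
  · exact hl x hx
  · exact hl' x hx

theorem length_le_flatten {C D : Type} (f : C → List D) (l : List C) (h : ∀ x ∈ l, f x ≠ []) :
    l.length ≤ (l.map f).flatten.length := by
  induction l with
  | nil => simp
  | cons a l ih =>
    have := ih (fun x hx => h x (List.mem_cons_of_mem _ hx))
    have h1 := List.length_pos_of_ne_nil (h a List.mem_cons_self)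
    rw [List.map_cons, List.flatten_cons, List.length_append, List.length_cons]
    omega

variable {X : List (List A × List B)}

theorem Gen.upTo_fst (hX : ∀ p ∈ X, p.1 ≠ [] ∧ p.2 ≠ []) {w : List A × List B} (h : Gen X w)
    {k : ℕ} (hk : w.1.length ≤ k) : w ∈ upTo X k := by
  obtain ⟨l, hl, h1, h2⟩ := h
  have := length_le_flatten Prod.fst l (fun x hx => (hX x (hl x hx)).1)
  rw [h1] at this
  exact (mem_upTo X k w).2 ⟨l, hl, by omega, h1, h2⟩

theorem Gen.upTo_snd (hX : ∀ p ∈ X, p.1 ≠ [] ∧ p.2 ≠ []) {w : List A × List B} (h : Gen X w)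
    {k : ℕ} (hk : w.2.length ≤ k) : w ∈ upTo X k := by
  obtain ⟨l, hl, h1, h2⟩ := h
  have := length_le_flatten Prod.snd l (fun x hx => (hX x (hl x hx)).2)
  rw [h2] at this
  exact (mem_upTo X k w).2 ⟨l, hl, by omega, h1, h2⟩

theorem Mem_iff (hX : ∀ p ∈ X, p.1 ≠ [] ∧ p.2 ≠ []) (w : List A × List B) :
    Mem X w ↔ Gen X w := by
  constructor
  · rintro ⟨a, ha, rfl⟩
    exact Gen.of_upTo ha
  · intro h
    exact ⟨w, h.upTo_fst hX le_rfl, rfl⟩

/-- Splitting a list of factors. -/
theorem split (l : List (List A × List B)) (hl : ∀ c ∈ l, c.1 ≠ []) (w y : List A)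
    (h : (l.map Prod.fst).flatten = w ++ y) :
    ∃ l₁ l₂ y₁, l = l₁ ++ l₂ ∧ (l₁.map Prod.fst).flatten = w ++ y₁ ∧
      y = y₁ ++ (l₂.map Prod.fst).flatten ∧ l₁.length ≤ w.length := by
  induction l generalizing w with
  | nil =>
    refine ⟨[], [], [], rfl, ?_, ?_, by simp⟩
    · have : w ++ y = [] := by rw [← h]; rfl
      simp [(List.append_eq_nil_iff.1 this).1]
    · have : w ++ y = [] := by rw [← h]; rfl
      simp [(List.append_eq_nil_iff.1 this).2]
  | cons c l ih =>
    by_cases hw : w = []
    · subst hw
      exact ⟨[], c :: l, [], rfl, rfl, by rw [h]; rfl, by simp⟩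
    · rw [List.map_cons, List.flatten_cons] at h
      rcases List.append_eq_append_iff.1 h with ⟨d, hd, hd'⟩ | ⟨d, hd, hd'⟩
      · obtain ⟨l₁, l₂, y₁, h1, h2, h3, h4⟩ := ih (fun c hc => hl c (List.mem_cons_of_mem _ hc)) d
          hd'
        refine ⟨c :: l₁, l₂, y₁, by rw [h1]; rfl, ?_, h3, ?_⟩
        · rw [List.map_cons, List.flatten_cons, h2, hd, List.append_assoc]
        · have := List.length_pos_of_ne_nil (hl c List.mem_cons_self)
          rw [hd, List.length_append, List.length_cons]
          omega
      · refine ⟨[c], l, d, rfl, by simp [hd], hd', ?_⟩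
        have := List.length_pos_of_ne_nil hw
        rw [List.length_singleton]
        omega

/-- From local to global replacement. -/
theorem local_to_global (hX : ∀ p ∈ X, p.1 ≠ [] ∧ p.2 ≠ []) (s s' : List A) (hs : s ≠ []) (K : ℕ)
    (hK : s.length ≤ K)
    (hloc : ∀ r ∈ upTo X K, ∀ x y, r.1 = x ++ (s ++ y) → Gen X (x ++ (s' ++ y), r.2))
    (x y : List A) (v : List B) (h : Gen X (x ++ (s ++ y), v)) : Gen X (x ++ (s' ++ y), v) := by
  obtain ⟨l, hl, h1, h2⟩ := h
  simp only at h1 h2
  have hs0 := List.length_pos_of_ne_nil hs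
  induction l generalizing x v with
  | nil =>
    exfalso
    have : x ++ (s ++ y) = [] := by rw [← h1]; rfl
    simp only [List.append_eq_nil_iff] at this
    exact hs this.2.1
  | cons c l ih =>
    have hcX := hl c List.mem_cons_self
    have hl' : ∀ x ∈ l, x ∈ X := fun x hx => hl x (List.mem_cons_of_mem _ hx)
    have h1c := h1
    rw [List.map_cons, List.flatten_cons] at h1 h2
    -- the generic conclusion from a covering prefix
    have key : ∀ l₁ l₂ : List (List A × List B), ∀ y₁ : List A, c :: l = l₁ ++ l₂ →
        (l₁.map Prod.fst).flatten = x ++ (s ++ y₁) → y = y₁ ++ (l₂.map Prod.fst).flatten →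
        l₁.length ≤ K → Gen X (x ++ (s' ++ y), v) := by
      intro l₁ l₂ y₁ hsplit hf1 hy hlen
      have hl₁ : ∀ z ∈ l₁, z ∈ X := fun z hz => hl z (by rw [hsplit]; simp [hz])
      have hl₂ : ∀ z ∈ l₂, z ∈ X := fun z hz => hl z (by rw [hsplit]; simp [hz])
      have hr := hloc (x ++ (s ++ y₁), (l₁.map Prod.snd).flatten)
        ((mem_upTo _ _ _).2 ⟨l₁, hl₁, hlen, hf1, rfl⟩) x y₁ rfl
      have hr2 : Gen X ((l₂.map Prod.fst).flatten, (l₂.map Prod.snd).flatten) :=
        ⟨l₂, hl₂, rfl, rfl⟩
      have hm := hr.mul hr2
      have e1 : x ++ (s' ++ y₁) ++ (l₂.map Prod.fst).flatten = x ++ (s' ++ y) := by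
        rw [hy]; simp
      have e2 : (l₁.map Prod.snd).flatten ++ (l₂.map Prod.snd).flatten = v := by
        rw [← List.flatten_append, ← List.map_append, ← hsplit, List.map_cons,
          List.flatten_cons, h2]
      simp only at hm
      rw [e1, e2] at hm
      exact hm
    rcases List.append_eq_append_iff.1 h1 with ⟨d, hd, hd'⟩ | ⟨d, hd, hd'⟩
    · -- the factor ends before the occurrence
      have hih := ih d (l.map Prod.snd).flatten hl' hd' rfl
      have hc : Gen X (c.1, c.2) := ⟨[c], by simpa using hcX, by simp, by simp⟩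
      have hm := hc.mul hih
      have e1 : c.1 ++ (d ++ (s' ++ y)) = x ++ (s' ++ y) := by rw [hd, List.append_assoc]
      rw [e1, h2] at hm
      exact hm
    · by_cases hd0 : d = []
      · subst hd0
        rw [List.append_nil] at hd
        rw [List.nil_append] at hd'
        have hih := ih [] (l.map Prod.snd).flatten hl' (by rw [List.nil_append, hd']) rfl
        have hc : Gen X (c.1, c.2) := ⟨[c], by simpa using hcX, by simp, by simp⟩
        have hm := hc.mul hih
        have e1 : c.1 ++ ([] ++ (s' ++ y)) = x ++ (s' ++ y) := by rw [hd, List.nil_append]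
        rw [e1, h2] at hm
        exact hm
      · -- the factor meets the occurrence
        have hdpos := List.length_pos_of_ne_nil hd0
        rcases List.append_eq_append_iff.1 hd' with ⟨e, he, he'⟩ | ⟨e, he, he'⟩
        · -- `d = s ++ e`
          refine key [c] l e rfl ?_ he' ?_
          · rw [List.map_singleton, List.flatten_singleton, hd, he]
          · simp only [List.length_singleton]
            omega
        · -- `s = d ++ e`
          obtain ⟨l₁, l₂, y₁, h3, h4, h5, h6⟩ := split l
            (fun z hz => (hX z (hl' z hz)).1) e y he'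
          refine key (c :: l₁) l₂ y₁ (by rw [h3]; rfl) ?_ h5 ?_
          · rw [List.map_cons, List.flatten_cons, h4, hd, he]
            simp
          · rw [he, List.length_append] at hK
            rw [List.length_cons]
            omega

/-! ### Free semigroups -/

theorem toL_mul {A : Type} (x y : FreeSemigroup A) : toL (x * y) = toL x ++ toL y := rfl

theorem toL_of {A : Type} (x : A) : toL (FreeSemigroup.of x) = [x] := rfl

theorem toL_ne {A : Type} (x : FreeSemigroup A) : toL x ≠ [] := by simp [toL]

theorem toL_inj {A : Type} {x y : FreeSemigroup A} (h : toL x = toL y) : x = y := by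
  cases x; cases y
  simp only [toL, List.cons.injEq] at h
  simp [h.1, h.2]

theorem exists_toL {A : Type} {u : List A} (h : u ≠ []) : ∃ x : FreeSemigroup A, toL x = u := by
  cases u with
  | nil => exact absurd rfl h
  | cons a u => exact ⟨⟨a, u⟩, rfl⟩

/-- The list of pairs of lists. -/
def lists (X : List (FreeSemigroup A × FreeSemigroup B)) : List (List A × List B) :=
  X.map fun p => (toL p.1, toL p.2)

theorem lists_valid (X : List (FreeSemigroup A × FreeSemigroup B)) :
    ∀ p ∈ lists X, p.1 ≠ [] ∧ p.2 ≠ [] := by
  intro p hp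
  obtain ⟨q, -, rfl⟩ := List.mem_map.1 hp
  exact ⟨toL_ne _, toL_ne _⟩

theorem mem_gen_iff (X : List (FreeSemigroup A × FreeSemigroup B)) (u : FreeSemigroup A)
    (v : FreeSemigroup B) : (u, v) ∈ gen X ↔ Gen (lists X) (toL u, toL v) := by
  constructor
  · intro h
    have : ∀ w ∈ gen X, Gen (lists X) (toL w.1, toL w.2) := by
      intro w hw
      induction hw using Subsemigroup.closure_induction with
      | mem w hw =>
        exact ⟨[(toL w.1, toL w.2)], by
          intro x hx
          rw [List.mem_singleton.1 hx]
          exact List.mem_map.2 ⟨w, hw, rfl⟩, by simp, by simp⟩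
      | mul w w' _ _ h1 h2 => exact h1.mul h2
    exact this _ h
  · rintro ⟨l, hl, h1, h2⟩
    simp only at h1 h2
    induction l generalizing u v with
    | nil => exact absurd h1.symm (toL_ne u)
    | cons c l ih =>
      obtain ⟨q, hq, rfl⟩ := List.mem_map.1 (hl c List.mem_cons_self)
      have hl' : ∀ x ∈ l, x ∈ lists X := fun x hx => hl x (List.mem_cons_of_mem _ hx)
      have hqg : q ∈ gen X := Subsemigroup.subset_closure hq
      rw [List.map_cons, List.flatten_cons] at h1 h2
      by_cases h : l = []
      · subst h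
        rw [List.map_nil, List.flatten_nil, List.append_nil] at h1 h2
        rw [← toL_inj h1, ← toL_inj h2]
        exact hqg
      · have hlen := List.length_pos_of_ne_nil h
        have e1 : (l.map Prod.fst).flatten ≠ [] := by
          intro h0
          have := length_le_flatten Prod.fst l (fun x hx => (lists_valid X x (hl' x hx)).1)
          rw [h0, List.length_nil] at this
          omega
        have e2 : (l.map Prod.snd).flatten ≠ [] := by
          intro h0
          have := length_le_flatten Prod.snd l (fun x hx => (lists_valid X x (hl' x hx)).2)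
          rw [h0, List.length_nil] at this
          omega
        obtain ⟨u', hu'⟩ := exists_toL e1
        obtain ⟨v', hv'⟩ := exists_toL e2
        have hmem := ih u' v' hl' hu'.symm hv'.symm
        rw [← hu', ← toL_mul] at h1
        rw [← hv', ← toL_mul] at h2
        rw [← toL_inj h1, ← toL_inj h2]
        exact Subsemigroup.mul_mem _ hqg hmem

/-- The value of a word. -/
def ev {A W : Type} [Monoid W] (f : A → W) (u : List A) : W := (u.map f).prod

theorem ev_nil {A W : Type} [Monoid W] (f : A → W) : ev f [] = 1 := by simp [ev]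

theorem ev_append {A W : Type} [Monoid W] (f : A → W) (u v : List A) :
    ev f (u ++ v) = ev f u * ev f v := by simp [ev]

theorem ev_toL {A Q : Type} [Semigroup Q] (f : FreeSemigroup A →ₙ* Q) (x : FreeSemigroup A) :
    ev (fun a => ((f (FreeSemigroup.of a) : Q) : WithOne Q)) (toL x) = ((f x : Q) : WithOne Q) := by
  induction x using FreeSemigroup.recOnMul with
  | ih1 a => simp [ev, toL_of]
  | ih2 a y h1 h2 => rw [toL_mul, ev_append, h1, h2, map_mul, WithOne.coe_mul]

theorem ev_ne_one {A Q : Type} [Semigroup Q] (f : FreeSemigroup A →ₙ* Q) {u : List A}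
    (h : u ≠ []) : ev (fun a => ((f (FreeSemigroup.of a) : Q) : WithOne Q)) u ≠ 1 := by
  obtain ⟨x, rfl⟩ := exists_toL h
  rw [ev_toL]
  exact WithOne.coe_ne_one

/-- A fiber product passes the test. -/
theorem test_of_fiberProduct (X : List (FreeSemigroup A × FreeSemigroup B))
    (h : IsFiberProduct (gen X)) : Test (lists X) := by
  obtain ⟨Q, _, φ, ψ, -, -, hS⟩ := h
  have hX := lists_valid X
  -- the kernel of the evaluation
  have hG : ∀ w : List A × List B, Gen (lists X) w ↔
      ev (fun a => ((φ (FreeSemigroup.of a) : Q) : WithOne Q)) w.1 =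
      ev (fun a => ((ψ (FreeSemigroup.of a) : Q) : WithOne Q)) w.2 := by
    rintro ⟨u, v⟩
    by_cases hu : u = []
    · subst hu
      by_cases hv : v = []
      · subst hv
        exact ⟨fun _ => by rw [ev_nil, ev_nil], fun _ => ⟨[], by simp, rfl, rfl⟩⟩
      · constructor
        · rintro ⟨l, hl, h1, h2⟩
          exfalso
          have := length_le_flatten Prod.fst l (fun x hx => (hX x (hl x hx)).1)
          rw [h1] at this
          have hl0 : l = [] := List.length_eq_zero_iff.1 (by simpa using this)
          subst hl0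
          exact hv h2.symm
        · intro h
          simp only [ev_nil] at h
          exact absurd h.symm (ev_ne_one ψ hv)
    · by_cases hv : v = []
      · subst hv
        constructor
        · rintro ⟨l, hl, h1, h2⟩
          exfalso
          have := length_le_flatten Prod.snd l (fun x hx => (hX x (hl x hx)).2)
          rw [h2] at this
          have hl0 : l = [] := List.length_eq_zero_iff.1 (by simpa using this)
          subst hl0
          exact hu h1.symm
        · intro h
          simp only [ev_nil] at h
          exact absurd h (ev_ne_one φ hu)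
      · obtain ⟨x, rfl⟩ := exists_toL hu
        obtain ⟨y, rfl⟩ := exists_toL hv
        rw [← mem_gen_iff, hS]
        simp only [ev_toL]
        exact ⟨fun h => by rw [h], fun h => WithOne.coe_injective h⟩
  -- replacement
  have hrep : ∀ (s s' : List A) (r : List A × List B) (i : ℕ), Gen (lists X) r →
      ev (fun a => ((φ (FreeSemigroup.of a) : Q) : WithOne Q)) s =
      ev (fun a => ((φ (FreeSemigroup.of a) : Q) : WithOne Q)) s' → Sw (lists X) s s' r i := by
    intro s s' r i hr hss
    by_cases hdec : r.1 = r.1.take i ++ (s ++ r.1.drop (i + s.length))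
    · right
      rw [Mem_iff hX, hG]
      simp only
      rw [ev_append, ev_append, ← hss, ← ev_append, ← ev_append, ← hdec]
      exact (hG r).1 hr
    · exact Or.inl hdec
  intro p hp q hq
  by_cases hpq : q.2 = p.2
  · right
    intro r hr i _
    have hpG : Gen (lists X) p := ⟨[p], by simpa using hp, by simp, by simp⟩
    have hqG : Gen (lists X) q := Gen.of_upTo hq
    have e1 := (hG p).1 hpG
    have e2 := (hG q).1 hqG
    have e3 : ev (fun a => ((φ (FreeSemigroup.of a) : Q) : WithOne Q)) p.1 =
      ev (fun a => ((φ (FreeSemigroup.of a) : Q) : WithOne Q)) q.1 := by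
      rw [e1, e2, hpq]
    exact ⟨hrep _ _ _ _ (Gen.of_upTo hr) e3, hrep _ _ _ _ (Gen.of_upTo hr) e3.symm⟩
  · exact Or.inl hpq

/-- The test implies the global replacement property. -/
theorem replace_of_test {X : List (List A × List B)} (hX : ∀ p ∈ X, p.1 ≠ [] ∧ p.2 ≠ [])
    (hT : Test X) (p : List A × List B) (hp : p ∈ X) (s : List A) (hs : Gen X (s, p.2))
    (x y : List A) (v : List B) : Gen X (x ++ (p.1 ++ y), v) ↔ Gen X (x ++ (s ++ y), v) := by
  have hq := hs.upTo_snd hX (k := p.2.length) le_rfl
  have hs0 : s ≠ [] := by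
    rintro rfl
    obtain ⟨l, hl, h1, h2⟩ := hs
    have := length_le_flatten Prod.fst l (fun x hx => (hX x (hl x hx)).1)
    rw [h1] at this
    have hl0 : l = [] := List.length_eq_zero_iff.1 (by simpa using this)
    subst hl0
    exact (hX p hp).2 h2.symm
  have hp0 := (hX p hp).1
  rcases hT p hp _ hq with h | h
  · exact absurd rfl h
  · have hdec : ∀ (t t' : List A) (r : List A × List B) (x y : List A),
        r.1 = x ++ (t ++ y) → Sw X t t' r x.length → Gen X (x ++ (t' ++ y), r.2) := by
      intro t t' r x y hr hsw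
      have e1 : r.1.take x.length = x := by rw [hr]; simp
      have e2 : r.1.drop (x.length + t.length) = y := by
        rw [hr, ← List.append_assoc, ← List.length_append]; simp
      unfold Sw at hsw
      rw [e1, e2] at hsw
      rcases hsw with hsw | hsw
      · exact absurd hr hsw
      · exact (Mem_iff hX _).1 hsw
    have hi : ∀ (t : List A) (r : List A × List B) (x y : List A), r.1 = x ++ (t ++ y) →
        x.length ∈ List.range (r.1.length + 1) := by
      intro t r x y hr
      rw [List.mem_range, hr, List.length_append]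
      omega
    constructor
    · apply local_to_global hX p.1 s hp0 (p.1.length + s.length) (by omega)
      intro r hr x y hxy
      exact hdec _ _ r x y hxy (h r hr _ (hi _ r x y hxy)).1
    · apply local_to_global hX s p.1 hs0 (p.1.length + s.length) (by omega)
      intro r hr x y hxy
      exact hdec _ _ r x y hxy (h r hr _ (hi _ r x y hxy)).2

/-- The syntactic congruence of the first coordinate. -/
def syn (X : List (List A × List B)) : Con (FreeSemigroup A) where
  r u u' := ∀ (x y : List A) (v : List B),
    Gen X (x ++ (toL u ++ y), v) ↔ Gen X (x ++ (toL u' ++ y), v)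
  iseqv := ⟨fun _ _ _ _ => Iff.rfl, fun h x y v => (h x y v).symm,
    fun h h' x y v => (h x y v).trans (h' x y v)⟩
  mul' := by
    intro u u' w w' h h' x y v
    rw [toL_mul, toL_mul]
    have e1 := h x (toL w ++ y) v
    have e2 := h' (x ++ toL u') y v
    simp only [List.append_assoc] at e1 e2 ⊢
    exact e1.trans e2

/-- A subdirect product that passes the test is a fiber product. -/
theorem fiberProduct_of_test (X : List (FreeSemigroup A × FreeSemigroup B))
    (hsub : IsSubdirect (gen X)) (hT : Test (lists X)) : IsFiberProduct (gen X) := by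
  have hX := lists_valid X
  choose φ hφ using fun b : B => hsub.2 (FreeSemigroup.of b)
  let Φ : FreeSemigroup B →ₙ* FreeSemigroup A := FreeSemigroup.lift φ
  have hΦ : ∀ v, (Φ v, v) ∈ gen X := by
    intro v
    induction v using FreeSemigroup.recOnMul with
    | ih1 b => simpa [Φ] using hφ b
    | ih2 b v h1 h2 =>
      rw [map_mul]
      exact Subsemigroup.mul_mem _ h1 h2
  -- the two homomorphisms
  let f : FreeSemigroup A →ₙ* (syn (lists X)).Quotient :=
    ⟨fun u => (u : (syn (lists X)).Quotient), fun _ _ => rfl⟩
  let g : FreeSemigroup B →ₙ* (syn (lists X)).Quotient := f.comp Φ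
  have hfg : ∀ u v, (u, v) ∈ gen X → f u = f (Φ v) := by
    have key : ∀ w ∈ gen X, f w.1 = f (Φ w.2) := by
      intro w hw
      induction hw using Subsemigroup.closure_induction with
      | mem w hw =>
        apply (Con.eq _).2
        intro x y v
        exact replace_of_test hX hT (toL w.1, toL w.2) (List.mem_map.2 ⟨w, hw, rfl⟩)
          (toL (Φ w.2)) ((mem_gen_iff X _ _).1 (hΦ w.2)) x y v
      | mul w w' _ _ h1 h2 =>
        change f (w.1 * w'.1) = f (Φ (w.2 * w'.2))
        rw [map_mul, map_mul, map_mul, h1, h2]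
    exact fun u v h => key _ h
  refine ⟨(syn (lists X)).Quotient, inferInstance, f, g, ?_, ?_, ?_⟩
  · intro q
    induction q using Con.induction_on with
    | H u => exact ⟨u, rfl⟩
  · intro q
    induction q using Con.induction_on with
    | H u =>
      obtain ⟨v, hv⟩ := hsub.1 u
      exact ⟨v, (hfg u v hv).symm⟩
  · intro u v
    constructor
    · exact hfg u v
    · intro h
      have h' : syn (lists X) u (Φ v) := (Con.eq _).1 h
      have := (h' [] [] (toL v))
      simp only [List.nil_append, List.append_nil] at this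
      rw [mem_gen_iff, this, ← mem_gen_iff]
      exact hΦ v

end Correct

/-! ### Transport along injective maps of letters -/

section Transport

variable {A B A' B' : Type} (i : A → A') (j : B → B')

/-- The map on pairs of words. -/
def F (w : List A × List B) : List A' × List B' := (w.1.map i, w.2.map j)

theorem prods_map (X : List (List A × List B)) (k : ℕ) :
    prods (X.map (F i j)) k = (prods X k).map (F i j) := by
  induction k with
  | zero => rfl
  | succ k ih =>
    rw [prods, prods, ih, List.flatMap_map, List.map_flatMap]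
    congr 1
    funext p
    rw [List.map_map, List.map_map]
    congr 1
    funext q
    simp [F]

theorem upTo_map (X : List (List A × List B)) (k : ℕ) :
    upTo (X.map (F i j)) k = (upTo X k).map (F i j) := by
  rw [upTo, upTo, List.map_flatMap]
  congr 1
  funext k
  exact prods_map i j X k

variable {i j}

theorem F_inj (hi : Function.Injective i) (hj : Function.Injective j) :
    Function.Injective (F i j) := by
  rintro ⟨u, v⟩ ⟨u', v'⟩ h
  simp only [F, Prod.mk.injEq] at h
  exact Prod.ext (List.map_injective_iff.2 hi h.1) (List.map_injective_iff.2 hj h.2)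

theorem Mem_map (hi : Function.Injective i) (hj : Function.Injective j)
    (X : List (List A × List B)) (w : List A × List B) :
    Mem (X.map (F i j)) (F i j w) ↔ Mem X w := by
  unfold Mem
  rw [show (F i j w).1.length = w.1.length by simp [F], upTo_map]
  constructor
  · rintro ⟨a, ha, h⟩
    obtain ⟨b, hb, rfl⟩ := List.mem_map.1 ha
    exact ⟨b, hb, F_inj hi hj h⟩
  · rintro ⟨a, ha, rfl⟩
    exact ⟨_, List.mem_map_of_mem ha, rfl⟩

theorem Sw_map (hi : Function.Injective i) (hj : Function.Injective j)
    (X : List (List A × List B)) (s s' : List A) (r : List A × List B) (n : ℕ) :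
    Sw (X.map (F i j)) (s.map i) (s'.map i) (F i j r) n ↔ Sw X s s' r n := by
  unfold Sw
  have e1 : ((F i j r).1.take n ++ (s'.map i ++ (F i j r).1.drop (n + (s.map i).length)),
      (F i j r).2) = F i j (r.1.take n ++ (s' ++ r.1.drop (n + s.length)), r.2) := by
    simp [F]
  have e2 : (F i j r).1 = (F i j r).1.take n ++ (s.map i ++
      (F i j r).1.drop (n + (s.map i).length)) ↔
      r.1 = r.1.take n ++ (s ++ r.1.drop (n + s.length)) := by
    have : (F i j r).1.take n ++ (s.map i ++ (F i j r).1.drop (n + (s.map i).length)) =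
      (r.1.take n ++ (s ++ r.1.drop (n + s.length))).map i := by simp [F]
    rw [this]
    exact (List.map_injective_iff.2 hi).eq_iff
  rw [e1, Mem_map hi hj, ne_eq, ne_eq, e2]

theorem Test_map (hi : Function.Injective i) (hj : Function.Injective j)
    (X : List (List A × List B)) : Test (X.map (F i j)) ↔ Test X := by
  unfold Test
  simp only [List.forall_mem_map]
  apply forall_congr'
  intro p
  apply imp_congr_right
  intro _
  rw [show (F i j p).2.length = p.2.length by simp [F], upTo_map]
  simp only [List.forall_mem_map]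
  apply forall_congr'
  intro q
  apply imp_congr_right
  intro _
  apply or_congr
  · have : (F i j q).2 = (F i j p).2 ↔ q.2 = p.2 := (List.map_injective_iff.2 hj).eq_iff
    rw [ne_eq, ne_eq, this]
  · rw [show (F i j p).1.length + (F i j q).1.length = p.1.length + q.1.length by simp [F],
      upTo_map]
    simp only [List.forall_mem_map]
    apply forall_congr'
    intro r
    apply imp_congr_right
    intro _
    rw [show (F i j r).1.length = r.1.length by simp [F]]
    apply forall_congr'
    intro n
    apply imp_congr_right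
    intro _
    exact and_congr (Sw_map hi hj X _ _ r n) (Sw_map hi hj X _ _ r n)

end Transport

/-- There is a primitive recursive (hence computable) procedure that decides, for a subdirect
product of two free semigroups given by a finite list of generating pairs, whether it is a fiber
product. -/
theorem result : ∃ d : ℕ × ℕ × List (List ℕ × List ℕ) → Bool, Primrec d ∧ Computable d ∧
    ∀ (m n : ℕ) (X : List (FreeSemigroup (Fin m) × FreeSemigroup (Fin n))),
      IsSubdirect (gen X) → (d (m, n, code X) = true ↔ IsFiberProduct (gen X)) := by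
  classical
  have hd : Primrec (fun a : ℕ × ℕ × List (List ℕ × List ℕ) => decide (Test a.2.2)) :=
    (primrec_Test.comp (Primrec.snd.comp Primrec.snd)).decide
  refine ⟨_, hd, hd.to_comp, ?_⟩
  intro m n X hsub
  have hcode : code X = (lists X).map (F Fin.val Fin.val) := by
    rw [code, lists, List.map_map]
    rfl
  simp only [decide_eq_true_eq]
  rw [hcode, Test_map Fin.val_injective Fin.val_injective]
  exact ⟨fiberProduct_of_test X hsub, test_of_fiberProduct X⟩

end Pool.Agent.Results.MP_b63848_al.Decidable
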